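import Pool.Agent.X29.NN.Line

set_option autoImplicit false

/-!
# The link with the polynomial networks of the statement
-/

namespace Pool.Agent.X29.NN

open Finset

noncomputable def mon (i : ℕ) : ℕ →₀ ℕ := Finsupp.single 0 i + Finsupp.single 1 (216 - i)

theorem mon_zero (i : ℕ) : mon i 0 = i := by
  unfold mon
  simp

theorem eq_mon {d : ℕ →₀ ℕ} (h1 : ∑ b ∈ d.support, d b = 216) (h2 : ∀ b ∈ d.support, b < 2) :
    d = mon (d 0) ∧ d 0 < 217 := by
  have h3 : d.support ⊆ range 2 := fun b hb => Finset.mem_range.mpr (h2 b hb)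
  have h4 : ∑ b ∈ range 2, d b = 216 := by
    rw [← h1]
    symm
    apply Finset.sum_subset h3
    intro b _ hb
    exact Finsupp.notMem_support_iff.mp hb
  rw [Finset.sum_range_succ, Finset.sum_range_succ, Finset.sum_range_zero, zero_add] at h4
  refine ⟨?_, by omega⟩
  ext k
  unfold mon
  rw [Finsupp.add_apply, Finsupp.single_apply, Finsupp.single_apply]
  rcases k with _ | _ | k
  · simp
  · simp
    omega
  · have h5 : d (k + 1 + 1) = 0 := by
      apply Finsupp.notMem_support_iff.mp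
      intro hmem
      have := h2 _ hmem
      omega
    rw [h5]
    simp

theorem mon_spec (i : ℕ) (hi : i < 217) :
    ∑ b ∈ (mon i).support, mon i b = 216 ∧ ∀ b ∈ (mon i).support, b < 2 := by
  have h3 : ∀ b, 2 ≤ b → mon i b = 0 := by
    intro b hb
    unfold mon
    rw [Finsupp.add_apply, Finsupp.single_apply, Finsupp.single_apply, if_neg (by omega),
      if_neg (by omega), add_zero]
  have h2 : ∀ b ∈ (mon i).support, b < 2 := by
    intro b hb
    by_contra hcon
    exact (Finsupp.mem_support_iff.mp hb) (h3 b (by omega))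
  refine ⟨?_, h2⟩
  have h4 : (mon i).support ⊆ range 2 := fun b hb => Finset.mem_range.mpr (h2 b hb)
  rw [Finset.sum_subset h4 (fun b _ hb => Finsupp.notMem_support_iff.mp hb),
    Finset.sum_range_succ, Finset.sum_range_succ, Finset.sum_range_zero, zero_add]
  unfold mon
  simp
  omega

/-- the network, unfolded -/
noncomputable def net4 (a b c : ℕ) (W : Fin 4 → ℕ → ℕ → ℂ) (o : ℕ) : MvPolynomial ℕ ℂ :=
  ∑ k ∈ range c, MvPolynomial.C (W 3 o k) * (∑ j ∈ range b, MvPolynomial.C (W 2 k j) *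
    (∑ i ∈ range a, MvPolynomial.C (W 1 j i) *
      (∑ f ∈ range 2, MvPolynomial.C (W 0 i f) * MvPolynomial.X f ^ 1) ^ 6) ^ 6) ^ 6

theorem net4_hom (a b c : ℕ) (W : Fin 4 → ℕ → ℕ → ℂ) (o : ℕ) :
    (net4 a b c W o).IsHomogeneous 216 := by
  have h0 : ∀ i, (∑ f ∈ range 2, MvPolynomial.C (W 0 i f) *
      (MvPolynomial.X f : MvPolynomial ℕ ℂ) ^ 1).IsHomogeneous 1 := by
    intro i
    apply MvPolynomial.IsHomogeneous.sum
    intro f _
    rw [pow_one]
    exact MvPolynomial.isHomogeneous_C_mul_X _ _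
  have h1 : ∀ j, (∑ i ∈ range a, MvPolynomial.C (W 1 j i) *
      (∑ f ∈ range 2, MvPolynomial.C (W 0 i f) *
      (MvPolynomial.X f : MvPolynomial ℕ ℂ) ^ 1) ^ 6).IsHomogeneous 6 := by
    intro j
    apply MvPolynomial.IsHomogeneous.sum
    intro i _
    exact ((h0 i).pow 6).C_mul _
  have h2 : ∀ k, (∑ j ∈ range b, MvPolynomial.C (W 2 k j) * (∑ i ∈ range a,
      MvPolynomial.C (W 1 j i) * (∑ f ∈ range 2, MvPolynomial.C (W 0 i f) *
      (MvPolynomial.X f : MvPolynomial ℕ ℂ) ^ 1) ^ 6) ^ 6).IsHomogeneous 36 := by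
    intro k
    apply MvPolynomial.IsHomogeneous.sum
    intro j _
    exact ((h1 j).pow 6).C_mul _
  unfold net4
  apply MvPolynomial.IsHomogeneous.sum
  intro k _
  exact ((h2 k).pow 6).C_mul _

theorem net4_sup (a b c : ℕ) (W : Fin 4 → ℕ → ℕ → ℂ) (o : ℕ) :
    net4 a b c W o ∈ MvPolynomial.supported ℂ ({x | x < 2} : Set ℕ) := by
  unfold net4
  apply Subalgebra.sum_mem
  intro k _
  apply Subalgebra.mul_mem _ (Subalgebra.algebraMap_mem _ _)
  apply Subalgebra.pow_mem
  apply Subalgebra.sum_mem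
  intro j _
  apply Subalgebra.mul_mem _ (Subalgebra.algebraMap_mem _ _)
  apply Subalgebra.pow_mem
  apply Subalgebra.sum_mem
  intro i _
  apply Subalgebra.mul_mem _ (Subalgebra.algebraMap_mem _ _)
  apply Subalgebra.pow_mem
  apply Subalgebra.sum_mem
  intro f hf
  apply Subalgebra.mul_mem _ (Subalgebra.algebraMap_mem _ _)
  apply Subalgebra.pow_mem
  exact MvPolynomial.X_mem_supported.mpr (Finset.mem_range.mp hf)

theorem sup_spec {F : MvPolynomial ℕ ℂ} (hF : F ∈ MvPolynomial.supported ℂ ({x | x < 2} : Set ℕ))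
    {d : ℕ →₀ ℕ} (hd : d ∈ F.support) : ∀ b ∈ d.support, b < 2 := by
  intro b hb
  rw [MvPolynomial.mem_supported] at hF
  exact hF ((MvPolynomial.mem_vars_iff_mem_support b).mpr ⟨d, hd, hb⟩)

/-- specialise the second variable at `1` -/
noncomputable def rho : MvPolynomial ℕ ℂ →ₐ[ℂ] PowerSeries ℂ :=
  MvPolynomial.aeval (fun k => if k = 0 then PowerSeries.X else 1)

theorem coeff_rho {F : MvPolynomial ℕ ℂ} (hF : F ∈ MvPolynomial.supported ℂ ({x | x < 2} : Set ℕ))
    (hh : F.IsHomogeneous 216) (i : ℕ) (hi : i < 217) :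
    MvPolynomial.coeff (mon i) F = PowerSeries.coeff i (rho F) := by
  have h1 : rho F = ∑ d ∈ F.support, PowerSeries.C (MvPolynomial.coeff d F) *
      PowerSeries.X ^ (d 0) := by
    unfold rho
    rw [MvPolynomial.aeval_def, MvPolynomial.eval₂_eq]
    apply Finset.sum_congr rfl
    intro d _
    congr 1
    by_cases h0 : (0 : ℕ) ∈ d.support
    · rw [Finset.prod_eq_single 0]
      · rw [if_pos rfl]
      · intro b _ hb
        rw [if_neg hb, one_pow]
      · intro hcon
        exact absurd h0 hcon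
    · have e : d 0 = 0 := Finsupp.notMem_support_iff.mp h0
      rw [e, pow_zero]
      apply Finset.prod_eq_one
      intro b hb
      have hb0 : b ≠ 0 := by
        intro hc
        rw [hc] at hb
        exact h0 hb
      rw [if_neg hb0, one_pow]
  rw [h1, map_sum]
  simp only [PowerSeries.coeff_C_mul_X_pow]
  rw [Finset.sum_eq_single (mon i)]
  · rw [mon_zero, if_pos rfl]
  · intro d hd hne
    rw [if_neg]
    intro hc
    apply hne
    have h2 := (eq_mon (hh.degree_eq_sum_deg_support hd).symm (sup_spec hF hd)).1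
    rw [← hc] at h2
    exact h2
  · intro hnot
    rw [mon_zero, if_pos rfl]
    exact MvPolynomial.notMem_support_iff.mp hnot

theorem rho_net4 (a b c : ℕ) (W : Fin 4 → ℕ → ℕ → ℂ) :
    rho (net4 a b c W 0) = netS a b c (W 0) (W 1) (W 2) (W 3) := by
  have hC : ∀ x : ℂ, rho (MvPolynomial.C x) = PowerSeries.C x := by
    intro x
    exact MvPolynomial.aeval_C _ _
  have h0 : ∀ i, rho (∑ f ∈ range 2, MvPolynomial.C (W 0 i f) *
      (MvPolynomial.X f : MvPolynomial ℕ ℂ) ^ 1) =
      PowerSeries.C (W 0 i 0) * PowerSeries.X + PowerSeries.C (W 0 i 1) := by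
    intro i
    have hX0 : rho (MvPolynomial.X 0) = PowerSeries.X := by
      unfold rho
      rw [MvPolynomial.aeval_X, if_pos rfl]
    have hX1 : rho (MvPolynomial.X 1) = 1 := by
      unfold rho
      rw [MvPolynomial.aeval_X, if_neg one_ne_zero]
    rw [Finset.sum_range_succ, Finset.sum_range_succ, Finset.sum_range_zero, zero_add, map_add,
      map_mul, map_mul, map_pow, map_pow, hX0, hX1, hC, hC, pow_one, pow_one, mul_one]
  unfold net4 netS
  simp only [map_sum, map_mul, map_pow, hC] at h0 ⊢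
  simp only [h0]

/-- the coefficients of the output `0` -/
theorem coeff_net4 (a b c : ℕ) (W : Fin 4 → ℕ → ℕ → ℂ) (i : ℕ) (hi : i < 217) :
    MvPolynomial.coeff (mon i) (net4 a b c W 0) =
      PowerSeries.coeff i (netS a b c (W 0) (W 1) (W 2) (W 3)) := by
  rw [coeff_rho (net4_sup a b c W 0) (net4_hom a b c W 0) i hi, rho_net4]

/-- the network of the statement -/
noncomputable abbrev Net (e : Fin (4 + 1) → ℕ) (W : Fin 4 → ℕ → ℕ → ℂ) : ℕ → MvPolynomial ℕ ℂ :=
  (List.finRange 4).foldl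
            (fun (h : ℕ → MvPolynomial ℕ ℂ) (k : Fin 4) (a : ℕ) =>
              ∑ b ∈ Finset.range (e k.castSucc),
                MvPolynomial.C (W k a b) * h b ^ (if (k : ℕ) = 0 then 1 else 6))
            (fun b : ℕ => (MvPolynomial.X b : MvPolynomial ℕ ℂ))

theorem Net_eq (e : Fin (4 + 1) → ℕ) (he : e 0 = 2) (W : Fin 4 → ℕ → ℕ → ℂ) (o : ℕ) :
    Net e W o = net4 (e 1) (e 2) (e 3) W o := by
  unfold Net net4
  have h1 : List.finRange 4 = [0, 1, 2, 3] := by decide
  rw [h1, List.foldl_cons, List.foldl_cons, List.foldl_cons, List.foldl_cons, List.foldl_nil,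
    ← he]
  rfl

def good (p : ℕ × (ℕ →₀ ℕ)) : Prop := p = (0, mon (p.2 0)) ∧ p.2 0 < 217

open Classical in
noncomputable def ext (y : Fin 217 → ℂ) (p : ℕ × (ℕ →₀ ℕ)) : ℂ :=
  if h : good p then y ⟨p.2 0, h.2⟩ else 0

/-- the filling property of the statement -/
def Fill (e : Fin (4 + 1) → ℕ) : Prop :=
  ∀ P : MvPolynomial (ℕ × (ℕ →₀ ℕ)) ℂ,
      (∀ W : Fin 4 → ℕ → ℕ → ℂ,
        MvPolynomial.eval (fun p : ℕ × (ℕ →₀ ℕ) => MvPolynomial.coeff p.2
          (Net e W p.1)) P = 0) →
      ∀ c : ℕ × (ℕ →₀ ℕ) → ℂ,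
        (∀ p : ℕ × (ℕ →₀ ℕ), c p ≠ 0 →
          p.1 < e (Fin.last 4) ∧ (∑ b ∈ p.2.support, p.2 b) = 6 ^ (4 - 1) ∧
            ∀ b ∈ p.2.support, b < e 0) →
        MvPolynomial.eval c P = 0

theorem fill_d : Fill ![2, 6, 5, 38, 1] := by
  classical
  intro P hP c hc
  let Q : MvPolynomial (Fin 217) ℂ :=
    MvPolynomial.aeval (fun p => if h : good p then MvPolynomial.X ⟨p.2 0, h.2⟩ else 0) P
  have hQ : ∀ y : Fin 217 → ℂ, MvPolynomial.eval y Q = MvPolynomial.eval (ext y) P := by
    intro y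
    change MvPolynomial.eval y (MvPolynomial.aeval _ P) = _
    rw [← MvPolynomial.coe_aeval_eq_eval, ← MvPolynomial.coe_aeval_eq_eval]
    change MvPolynomial.aeval y (MvPolynomial.aeval _ P) = MvPolynomial.aeval (ext y) P
    rw [← AlgHom.comp_apply, MvPolynomial.comp_aeval]
    congr 2
    funext p
    unfold ext
    by_cases h : good p
    · rw [dif_pos h, dif_pos h, MvPolynomial.aeval_X]
    · rw [dif_neg h, dif_neg h, map_zero]
  have hQ0 : Q = 0 := by
    apply dense_net
    intro w0 w1 w2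
    rw [hQ]
    have h1 := hP ![w0, w1, w2, fun a _ => if a = 0 then 1 else 0]
    rw [← h1]
    congr 2
    funext p
    rw [Net_eq _ rfl]
    change ext _ p = MvPolynomial.coeff p.2 (net4 6 5 38 _ p.1)
    unfold ext
    by_cases h : good p
    · rw [dif_pos h]
      obtain ⟨m, d⟩ := p
      have hm : m = 0 := congrArg Prod.fst h.1
      have hd : d = mon (d 0) := congrArg Prod.snd h.1
      change PowerSeries.coeff (d 0) _ = MvPolynomial.coeff d (net4 6 5 38 _ m)
      have h3 : MvPolynomial.coeff d (net4 6 5 38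
          ![w0, w1, w2, fun a _ => if a = 0 then 1 else 0] m) =
          MvPolynomial.coeff (mon (d 0)) (net4 6 5 38
          ![w0, w1, w2, fun a _ => if a = 0 then 1 else 0] 0) := by
        rw [hm, ← hd]
      rw [h3, coeff_net4 _ _ _ _ _ h.2]
      unfold netS
      simp
    · rw [dif_neg h]
      symm
      obtain ⟨m, d⟩ := p
      change MvPolynomial.coeff d (net4 6 5 38 _ m) = 0
      by_cases hm : m = 0
      · by_contra hne
        have hmem : d ∈ (net4 6 5 38 ![w0, w1, w2, fun a _ => if a = 0 then 1 else 0] m).support :=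
          MvPolynomial.mem_support_iff.mpr hne
        have h4 := eq_mon ((net4_hom 6 5 38 ![w0, w1, w2, fun a _ => if a = 0 then 1 else 0]
          m).degree_eq_sum_deg_support hmem).symm (sup_spec (net4_sup 6 5 38
          ![w0, w1, w2, fun a _ => if a = 0 then 1 else 0] m) hmem)
        apply h
        refine ⟨?_, h4.2⟩
        rw [hm, ← h4.1]
      · have h5 : net4 6 5 38 ![w0, w1, w2, fun a _ => if a = 0 then 1 else 0] m = 0 := by
          unfold net4
          apply Finset.sum_eq_zero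
          intro k _
          have h6 : (![w0, w1, w2, fun a _ => if a = 0 then 1 else 0] : Fin 4 → ℕ → ℕ → ℂ) 3 m k =
              0 := if_neg hm
          rw [h6, map_zero, zero_mul]
        rw [h5, MvPolynomial.coeff_zero]
  have h7 : c = ext (fun i => c (0, mon i)) := by
    funext p
    unfold ext
    by_cases h : good p
    · rw [dif_pos h]
      change c p = c (0, mon (p.2 0))
      rw [← h.1]
    · rw [dif_neg h]
      by_contra hne
      obtain ⟨h8, h9, h10⟩ := hc p hne
      have h11 := eq_mon h9 h10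
      apply h
      refine ⟨?_, h11.2⟩
      obtain ⟨m, d⟩ := p
      have hm : m = 0 := by
        have : m < 1 := h8
        omega
      rw [hm, ← h11.1]
  rw [h7, ← hQ, hQ0, map_zero]

theorem not_fill {e : Fin (4 + 1) → ℕ} (he0 : e 0 = 2) (he4 : e (Fin.last 4) = 1)
    (h : (e 1 + e 2 * (e 1 - 1)) + (e 3 * (e 2 - 1) + e 3) ≤ 216) : ¬ Fill e := by
  classical
  intro hF
  obtain ⟨Q, hQ, hdep⟩ := exists_dep h
  apply hQ
  apply MvPolynomial.funext
  intro y
  rw [map_zero]
  have h1 := hF (MvPolynomial.rename (fun i : Fin 217 => ((0 : ℕ), mon i)) Q) (by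
    intro W
    rw [MvPolynomial.eval_rename]
    rw [← dep_net hdep (W 0) (W 1) (W 2) (W 3)]
    congr 2
    funext i
    change MvPolynomial.coeff (mon i) (Net e W 0) = _
    rw [Net_eq e he0, coeff_net4 _ _ _ _ _ i.2]) (ext y) (by
    intro p hp
    unfold ext at hp
    by_cases hg : good p
    · rw [he4, he0]
      obtain ⟨m, d⟩ := p
      have hm : m = 0 := congrArg Prod.fst hg.1
      have hd : d = mon (d 0) := congrArg Prod.snd hg.1
      have h2 := mon_spec (d 0) hg.2
      rw [← hd] at h2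
      refine ⟨?_, h2.1, h2.2⟩
      change m < 1
      omega
    · rw [dif_neg hg] at hp
      exact absurd rfl hp)
  rw [MvPolynomial.eval_rename] at h1
  rw [← h1]
  congr 2
  funext i
  change y i = ext y (0, mon i)
  unfold ext
  have hg : good ((0 : ℕ), mon i) := by
    refine ⟨?_, ?_⟩
    · change ((0 : ℕ), mon i) = (0, mon (mon i 0))
      rw [mon_zero]
    · change mon i 0 < 217
      rw [mon_zero]
      exact i.2
  rw [dif_pos hg]
  congr 1
  apply Fin.ext
  change (i : ℕ) = mon i 0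
  rw [mon_zero]

theorem minimal (d' : Fin (4 + 1) → ℕ) (h1 : ∀ i, 1 ≤ d' i) (h0 : d' 0 = 2)
    (h4 : d' (Fin.last 4) = 1) (hle : d' ≤ ![2, 6, 5, 38, 1]) (hF : Fill d') :
    d' = ![2, 6, 5, 38, 1] := by
  have a1 : d' 1 ≤ 6 := hle 1
  have a2 : d' 2 ≤ 5 := hle 2
  have a3 : d' 3 ≤ 38 := hle 3
  by_contra hne
  have h5 : ¬ (d' 1 = 6 ∧ d' 2 = 5 ∧ d' 3 = 38) := by
    rintro ⟨b1, b2, b3⟩
    apply hne
    funext i
    fin_cases i
    · exact h0
    · exact b1
    · exact b2
    · exact b3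
    · exact h4
  exact not_fill h0 h4 (card_le a1 a2 a3 (h1 1) (h1 2) h5) hF

end Pool.Agent.X29.NN
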