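import Pool.Agent.X29.NN.Num

set_option autoImplicit false

/-!
# The kernel checks
-/

namespace Pool.Agent.X29.NN

theorem rows0 : rowsOk Dl0 0 = true := by decide +kernel
theorem rows1 : rowsOk Dl1 31 = true := by decide +kernel
theorem rows2 : rowsOk Dl2 62 = true := by decide +kernel
theorem rows3 : rowsOk Dl3 93 = true := by decide +kernel
theorem rows4 : rowsOk Dl4 124 = true := by decide +kernel
theorem rows5 : rowsOk Dl5 155 = true := by decide +kernel
theorem rows6 : rowsOk Dl6 186 = true := by decide +kernel
theorem inv0 : invOk Bl0 0 = true := by decide +kernel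
theorem inv1 : invOk Bl1 31 = true := by decide +kernel
theorem inv2 : invOk Bl2 62 = true := by decide +kernel
theorem inv3 : invOk Bl3 93 = true := by decide +kernel
theorem inv4 : invOk Bl4 124 = true := by decide +kernel
theorem inv5 : invOk Bl5 155 = true := by decide +kernel
theorem inv6 : invOk Bl6 186 = true := by decide +kernel

end Pool.Agent.X29.NN
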