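import Mathlib

set_option autoImplicit false

/-!
# A density lemma
-/

namespace Pool.Agent.X29.NN

open Finset

theorem aeval_smul {σ A : Type} [CommRing A] [Algebra ℂ A] {p : MvPolynomial σ ℂ} {n : ℕ}
    (hp : p.IsHomogeneous n) (t : A) (y : σ → A) :
    MvPolynomial.aeval (fun j => t * y j) p = t ^ n * MvPolynomial.aeval y p := by
  rw [MvPolynomial.aeval_def, MvPolynomial.aeval_def, MvPolynomial.eval₂_eq, MvPolynomial.eval₂_eq,
    Finset.mul_sum]
  apply Finset.sum_congr rfl
  intro d hd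
  have h1 := hp.degree_eq_sum_deg_support hd
  have h2 : ∏ i ∈ d.support, (t * y i) ^ d i = t ^ n * ∏ i ∈ d.support, y i ^ d i := by
    simp only [mul_pow]
    rw [Finset.prod_mul_distrib, Finset.prod_pow_eq_pow_sum, h1]
  rw [h2]
  ring

theorem low_zero {σ : Type} (Q : MvPolynomial σ ℂ)
    (h : ∀ b : σ → ℂ, ∃ r : σ → Polynomial ℂ,
      MvPolynomial.aeval (fun j => Polynomial.X * (Polynomial.C (b j) + Polynomial.X * r j)) Q = 0) :
    Q = 0 := by
  classical
  by_contra hQ
  have hex : ∃ n, MvPolynomial.homogeneousComponent n Q ≠ 0 := by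
    by_contra hcon
    push Not at hcon
    apply hQ
    rw [← MvPolynomial.sum_homogeneousComponent Q]
    exact Finset.sum_eq_zero (fun n _ => hcon n)
  let m := Nat.find hex
  have hm : MvPolynomial.homogeneousComponent m Q ≠ 0 := Nat.find_spec hex
  have hlt : ∀ n, n < m → MvPolynomial.homogeneousComponent n Q = 0 := by
    intro n hn
    by_contra hcon
    exact Nat.find_min hex hn hcon
  apply hm
  apply MvPolynomial.IsHomogeneous.eq_zero_of_forall_eval_eq_zero
    (MvPolynomial.homogeneousComponent_isHomogeneous m Q)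
  intro b
  obtain ⟨r, hr⟩ := h b
  let y : σ → Polynomial ℂ := fun j => Polynomial.C (b j) + Polynomial.X * r j
  have h1 : ∑ n ∈ range (Q.totalDegree + 1), (Polynomial.X : Polynomial ℂ) ^ n *
      MvPolynomial.aeval y (MvPolynomial.homogeneousComponent n Q) = 0 := by
    rw [← hr]
    conv_rhs => rw [← MvPolynomial.sum_homogeneousComponent Q]
    rw [map_sum]
    apply Finset.sum_congr rfl
    intro n _
    rw [← aeval_smul (MvPolynomial.homogeneousComponent_isHomogeneous n Q)]
  have h2 : ∑ n ∈ range (Q.totalDegree + 1), (Polynomial.X : Polynomial ℂ) ^ n *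
      MvPolynomial.aeval y (MvPolynomial.homogeneousComponent n Q) =
      Polynomial.X ^ m * ∑ n ∈ range (Q.totalDegree + 1),
        if m ≤ n then (Polynomial.X : Polynomial ℂ) ^ (n - m) *
      MvPolynomial.aeval y (MvPolynomial.homogeneousComponent n Q) else 0 := by
    rw [Finset.mul_sum]
    apply Finset.sum_congr rfl
    intro n _
    by_cases hn : m ≤ n
    · rw [if_pos hn, ← mul_assoc, ← pow_add, Nat.add_sub_cancel' hn]
    · rw [if_neg hn, hlt n (by omega), map_zero, mul_zero, mul_zero]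
  rw [h1] at h2
  have h3 := (mul_eq_zero.mp h2.symm).resolve_left (pow_ne_zero _ Polynomial.X_ne_zero)
  have h4 := congrArg (Polynomial.eval 0) h3
  rw [Polynomial.eval_finsetSum, Finset.sum_eq_single m] at h4
  · rw [if_pos le_rfl, Nat.sub_self, pow_zero, one_mul, Polynomial.eval_zero] at h4
    have h5 : Polynomial.eval 0 (MvPolynomial.aeval y (MvPolynomial.homogeneousComponent m Q)) =
        MvPolynomial.eval b (MvPolynomial.homogeneousComponent m Q) := by
      have h6 : Polynomial.eval 0 (MvPolynomial.aeval y (MvPolynomial.homogeneousComponent m Q)) =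
          (Polynomial.aeval (0 : ℂ)) (MvPolynomial.aeval y
            (MvPolynomial.homogeneousComponent m Q)) := by
        rw [Polynomial.coe_aeval_eq_eval]
      rw [h6, ← AlgHom.comp_apply, MvPolynomial.comp_aeval, ← MvPolynomial.coe_aeval_eq_eval]
      have h7 : (fun i => (Polynomial.aeval (0 : ℂ)) (y i)) = b := by
        funext i
        change (Polynomial.aeval (0 : ℂ)) (Polynomial.C (b i) + Polynomial.X * r i) = b i
        simp
      rw [h7]
      rfl
    rw [← h5]
    exact h4
  · intro n _ hne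
    by_cases hn : m ≤ n
    · rw [if_pos hn, Polynomial.eval_mul, Polynomial.eval_pow, Polynomial.eval_X, zero_pow (by omega),
        zero_mul]
    · rw [if_neg hn, Polynomial.eval_zero]
  · intro hnot
    rw [Finset.mem_range, not_lt] at hnot
    rw [if_pos le_rfl]
    rw [MvPolynomial.homogeneousComponent_eq_zero _ _ (by omega), map_zero, mul_zero,
      Polynomial.eval_zero]

theorem dens {σ : Type} (P : MvPolynomial σ ℂ) (a : σ → ℂ)
    (h : ∀ b : σ → ℂ, ∃ r : σ → Polynomial ℂ,
      MvPolynomial.aeval (fun j => Polynomial.C (a j) + Polynomial.X * Polynomial.C (b j) +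
        Polynomial.X ^ 2 * r j) P = 0) : P = 0 := by
  let Q : MvPolynomial σ ℂ := MvPolynomial.aeval (fun j => MvPolynomial.X j + MvPolynomial.C (a j)) P
  have hQ : Q = 0 := by
    apply low_zero
    intro b
    obtain ⟨r, hr⟩ := h b
    refine ⟨r, ?_⟩
    change MvPolynomial.aeval _ (MvPolynomial.aeval _ P) = 0
    rw [← AlgHom.comp_apply, MvPolynomial.comp_aeval, ← hr]
    congr 2
    funext j
    rw [map_add, MvPolynomial.aeval_X, ← MvPolynomial.algebraMap_eq, AlgHom.commutes,
      ← Polynomial.C_eq_algebraMap]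
    ring
  have h2 : MvPolynomial.aeval (fun j => MvPolynomial.X j - MvPolynomial.C (a j)) Q = P := by
    change MvPolynomial.aeval _ (MvPolynomial.aeval _ P) = P
    rw [← AlgHom.comp_apply, MvPolynomial.comp_aeval]
    have e : (fun i => (MvPolynomial.aeval (fun j => (MvPolynomial.X j - MvPolynomial.C (a j) :
        MvPolynomial σ ℂ))) (MvPolynomial.X i + MvPolynomial.C (a i))) = MvPolynomial.X := by
      funext j
      rw [map_add, MvPolynomial.aeval_X, ← MvPolynomial.algebraMap_eq, AlgHom.commutes]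
      ring
    rw [e, MvPolynomial.aeval_X_left, AlgHom.id_apply]
  rw [← h2, hQ, map_zero]

/-! ### first order expansions -/

def Lin {A : Type} [CommRing A] (S x x0 x1 : A) : Prop := ∃ r, x = x0 + S * x1 + S ^ 2 * r

section

variable {A : Type} [CommRing A] {S : A}

theorem Lin.pow6 {x x0 x1 : A} (h : Lin S x x0 x1) : Lin S (x ^ 6) (x0 ^ 6) (6 * x0 ^ 5 * x1) := by
  obtain ⟨r, hr⟩ := h
  refine ⟨6 * x0 ^ 5 * r + 15 * x0 ^ 4 * (x1 + S * r) ^ 2 + 20 * x0 ^ 3 * S * (x1 + S * r) ^ 3 +
    15 * x0 ^ 2 * S ^ 2 * (x1 + S * r) ^ 4 + 6 * x0 * S ^ 3 * (x1 + S * r) ^ 5 +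
    S ^ 4 * (x1 + S * r) ^ 6, ?_⟩
  have e : x = x0 + S * (x1 + S * r) := by rw [hr]; ring
  rw [e]
  ring

theorem Lin.mul {x x0 x1 y y0 y1 : A} (h : Lin S x x0 x1) (g : Lin S y y0 y1) :
    Lin S (y * x) (y0 * x0) (y0 * x1 + y1 * x0) := by
  obtain ⟨r, hr⟩ := h
  obtain ⟨q, hq⟩ := g
  refine ⟨y0 * r + y1 * x1 + q * x0 + S * (y1 * r + q * x1) + S ^ 2 * (q * r), ?_⟩
  rw [hr, hq]
  ring

theorem Lin.sum {n : ℕ} {x x0 x1 : ℕ → A} (h : ∀ i, i < n → Lin S (x i) (x0 i) (x1 i)) :
    Lin S (∑ i ∈ range n, x i) (∑ i ∈ range n, x0 i) (∑ i ∈ range n, x1 i) := by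
  induction n with
  | zero => exact ⟨0, by simp⟩
  | succ n ih =>
    obtain ⟨r, hr⟩ := ih (fun i hi => h i (by omega))
    obtain ⟨q, hq⟩ := h n (by omega)
    refine ⟨r + q, ?_⟩
    rw [Finset.sum_range_succ, Finset.sum_range_succ, Finset.sum_range_succ, hr, hq]
    ring

end

end Pool.Agent.X29.NN
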