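import Pool.Agent.X29.NN.Ser
import Pool.Agent.X29.NN.Check

set_option autoImplicit false

/-!
# The derivatives span
-/

namespace Pool.Agent.X29.NN

open Finset Pool.Agent.X29.Asd

theorem rowsOk_spec : ∀ (l : List ℕ) (s : ℕ), rowsOk l s = true →
    ∀ i, i < l.length → l.getD i 0 = Dn (s + i) := by
  intro l
  induction l with
  | nil => intro s _ i hi; simp at hi
  | cons d t ih =>
    intro s h i hi
    unfold rowsOk at h
    rw [Bool.and_eq_true] at h
    rcases i with _ | i
    · rw [List.getD_cons_zero, Nat.add_zero]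
      exact (Nat.eq_of_beq_eq_true h.1).symm
    · rw [List.getD_cons_succ, ih (s + 1) h.2 i (by simpa using hi)]
      congr 1
      omega

theorem rowsOk_append : ∀ (l m : List ℕ) (s : ℕ), rowsOk l s = true →
    rowsOk m (s + l.length) = true → rowsOk (l ++ m) s = true := by
  intro l
  induction l with
  | nil => intro m s _ h; simpa using h
  | cons d t ih =>
    intro m s h1 h2
    unfold rowsOk at h1
    rw [Bool.and_eq_true] at h1
    rw [List.cons_append]
    unfold rowsOk
    rw [Bool.and_eq_true]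
    refine ⟨h1.1, ih m (s + 1) h1.2 ?_⟩
    rw [List.length_cons] at h2
    have e : s + 1 + t.length = s + (t.length + 1) := by omega
    rw [e]
    exact h2

theorem invOk_append : ∀ (l m : List ℕ) (s : ℕ), invOk l s = true →
    invOk m (s + l.length) = true → invOk (l ++ m) s = true := by
  intro l
  induction l with
  | nil => intro m s _ h; simpa using h
  | cons d t ih =>
    intro m s h1 h2
    unfold invOk at h1
    rw [Bool.and_eq_true] at h1
    rw [List.cons_append]
    unfold invOk
    rw [Bool.and_eq_true]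
    refine ⟨h1.1, ih m (s + 1) h1.2 ?_⟩
    rw [List.length_cons] at h2
    have e : s + 1 + t.length = s + (t.length + 1) := by omega
    rw [e]
    exact h2

theorem invOk_spec : ∀ (l : List ℕ) (s : ℕ), invOk l s = true →
    ∀ i, i < l.length → rd (dotp (l.getD i 0) Dl) = B ^ (s + i) := by
  intro l
  induction l with
  | nil => intro s _ i hi; simp at hi
  | cons d t ih =>
    intro s h i hi
    unfold invOk at h
    rw [Bool.and_eq_true] at h
    rcases i with _ | i
    · rw [List.getD_cons_zero, Nat.add_zero]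
      exact Nat.eq_of_beq_eq_true h.1
    · rw [List.getD_cons_succ, ih (s + 1) h.2 i (by simpa using hi)]
      congr 1
      omega

theorem lenD : Dl0.length = 31 ∧ Dl1.length = 31 ∧ Dl2.length = 31 ∧ Dl3.length = 31 ∧
    Dl4.length = 31 ∧ Dl5.length = 31 ∧ Dl6.length = 31 := by decide +kernel
theorem lenB : Bl0.length = 31 ∧ Bl1.length = 31 ∧ Bl2.length = 31 ∧ Bl3.length = 31 ∧
    Bl4.length = 31 ∧ Bl5.length = 31 ∧ Bl6.length = 31 := by decide +kernel

def Bl : List ℕ := Bl0 ++ (Bl1 ++ (Bl2 ++ (Bl3 ++ (Bl4 ++ (Bl5 ++ Bl6)))))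

theorem lenDl : Dl.length = 217 := by
  obtain ⟨h0, h1, h2, h3, h4, h5, h6⟩ := lenD
  unfold Dl
  rw [List.length_append, List.length_append, List.length_append, List.length_append,
    List.length_append, List.length_append, h0, h1, h2, h3, h4, h5, h6]

theorem lenBl : Bl.length = 217 := by
  obtain ⟨h0, h1, h2, h3, h4, h5, h6⟩ := lenB
  unfold Bl
  rw [List.length_append, List.length_append, List.length_append, List.length_append,
    List.length_append, List.length_append, h0, h1, h2, h3, h4, h5, h6]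

theorem rowsOk_all : rowsOk Dl 0 = true := by
  obtain ⟨h0, h1, h2, h3, h4, h5, h6⟩ := lenD
  unfold Dl
  apply rowsOk_append _ _ _ rows0
  rw [h0]
  apply rowsOk_append _ _ _ rows1
  rw [h1]
  apply rowsOk_append _ _ _ rows2
  rw [h2]
  apply rowsOk_append _ _ _ rows3
  rw [h3]
  apply rowsOk_append _ _ _ rows4
  rw [h4]
  apply rowsOk_append _ _ _ rows5
  rw [h5]
  exact rows6

theorem invOk_all : invOk Bl 0 = true := by
  obtain ⟨h0, h1, h2, h3, h4, h5, h6⟩ := lenB
  unfold Bl
  apply invOk_append _ _ _ inv0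
  rw [h0]
  apply invOk_append _ _ _ inv1
  rw [h1]
  apply invOk_append _ _ _ inv2
  rw [h2]
  apply invOk_append _ _ _ inv3
  rw [h3]
  apply invOk_append _ _ _ inv4
  rw [h4]
  apply invOk_append _ _ _ inv5
  rw [h5]
  exact inv6

theorem rep_dotp : ∀ (l : List ℕ) (w : ℕ) (f : ℕ → PowerSeries (ZMod 251)),
    l.length * (255 * 250) < B → (∀ i, i < l.length → P (f i) (l.getD i 0)) →
    Rep B 251 (2 ^ 8) (l.length * (255 * 250))
      (∑ i ∈ range l.length, ((w / 256 ^ i % 256 : ℕ) : PowerSeries (ZMod 251)) * f i)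
      (dotp w l) := by
  intro l
  induction l with
  | nil =>
    intro w f _ _
    rw [List.length_nil, Nat.zero_mul, Finset.sum_range_zero]
    exact rep_zero
  | cons d t ih =>
    intro w f hB h
    rw [List.length_cons] at hB h ⊢
    rw [Finset.sum_range_succ']
    have e : (t.length + 1) * (255 * 250) = 255 * 250 + t.length * (255 * 250) := by ring
    rw [e] at hB ⊢
    have h1 := ih (w / 256) (fun i => f (i + 1)) (lt_of_le_of_lt (Nat.le_add_left _ _) hB) (by
      intro i hi
      have := h (i + 1) (by omega)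
      rwa [List.getD_cons_succ] at this)
    have h0 := h 0 (Nat.succ_pos _)
    rw [List.getD_cons_zero] at h0
    have g0 : w % 256 * 250 ≤ 255 * 250 :=
      Nat.mul_le_mul_right 250 (by have := Nat.mod_lt w (show 0 < 256 by norm_num); omega)
    have g1 : 255 * 250 < B := by norm_num
    have h2 := ((h0.smul (w % 256) (lt_of_le_of_lt g0 g1)).mono g0 g1).add hB h1
    unfold dotp
    have e2 : (∑ k ∈ range t.length,
        ((w / 256 ^ (k + 1) % 256 : ℕ) : PowerSeries (ZMod 251)) * f (k + 1)) +
        ((w / 256 ^ 0 % 256 : ℕ) : PowerSeries (ZMod 251)) * f 0 =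
        ((w % 256 : ℕ) : PowerSeries (ZMod 251)) * f 0 + ∑ k ∈ range t.length,
        ((w / 256 / 256 ^ k % 256 : ℕ) : PowerSeries (ZMod 251)) * f (k + 1) := by
      rw [add_comm, pow_zero, Nat.div_one]
      congr 1
      apply Finset.sum_congr rfl
      intro k _
      rw [pow_succ', Nat.div_div_eq_div_mul]
    rw [e2]
    exact h2

theorem dig_pow (j k : ℕ) : dig B j (B ^ k) = if j = k then 1 else 0 := by
  have hB : 1 < B := by norm_num
  unfold dig
  rcases lt_trichotomy j k with h | h | h
  · rw [if_neg h.ne, Nat.pow_div h.le (by norm_num)]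
    obtain ⟨m, hm⟩ : ∃ m, k - j = m + 1 := ⟨k - j - 1, by omega⟩
    rw [hm, pow_succ]
    exact Nat.mul_mod_left _ _
  · rw [if_pos h, h, Nat.div_self (Nat.pow_pos (by norm_num))]
    exact Nat.mod_eq_of_lt hB
  · rw [if_neg h.ne', Nat.div_eq_of_lt (Nat.pow_lt_pow_right hB h)]
    rfl

/-- coefficients of the inverse matrix -/
def beta (k i : ℕ) : ℕ := Bl.getD k 0 / 256 ^ i % 256

theorem beta_spec (k : ℕ) (hk : k < 217) (j : ℕ) (hj : j < 217) :
    ∑ i ∈ range 217, ((beta k i : ℕ) : ZMod 251) * PowerSeries.coeff j (sD (ZMod 251) i) =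
      if j = k then 1 else 0 := by
  have h1 := rep_dotp Dl (Bl.getD k 0) (sD (ZMod 251)) (by rw [lenDl]; norm_num) (by
    intro i hi
    rw [lenDl] at hi
    rw [rowsOk_spec Dl 0 rowsOk_all i (by rw [lenDl]; exact hi), Nat.zero_add]
    exact P_Dn i hi)
  have h2 : Rep B 251 (2 ^ 8) (251 - 1) _ (red B 251 8 (dotp (Bl.getD k 0) Dl)) :=
    Rep.ofRed (M := 251) (h := 8) (by norm_num) (by norm_num) h1
  have h3 : red B 251 8 (dotp (Bl.getD k 0) Dl) = B ^ (0 + k) :=
    invOk_spec Bl 0 invOk_all k (by rw [lenBl]; exact hk)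
  have h4 := h2.co j (by omega)
  rw [h3, dig_pow, Nat.zero_add, lenDl, map_sum] at h4
  have h5 : (((if j = k then 1 else 0 : ℕ)) : ZMod 251) = if j = k then 1 else 0 := by
    split_ifs <;> simp
  rw [← h5, ← h4]
  apply Finset.sum_congr rfl
  intro i _
  have e2 : ((Bl.getD k 0 / 256 ^ i % 256 : ℕ) : PowerSeries (ZMod 251)) =
      PowerSeries.C ((Bl.getD k 0 / 256 ^ i % 256 : ℕ) : ZMod 251) := by
    rw [map_natCast]
  rw [e2, PowerSeries.coeff_C_mul]
  rfl

/-- the matrix of the derivatives -/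
noncomputable def mD (R : Type) [CommRing R] : Matrix (Fin 217) (Fin 217) R :=
  Matrix.of fun i j => PowerSeries.coeff j (sD R i)

theorem map_mD {R S : Type} [CommRing R] [CommRing S] (φ : R →+* S) : (mD R).map φ = mD S := by
  ext i j
  rw [Matrix.map_apply]
  change φ (PowerSeries.coeff j (sD R i)) = PowerSeries.coeff j (sD S i)
  rw [← map_sD φ, PowerSeries.coeff_map]

theorem det_mD : (mD ℤ).det ≠ 0 := by
  intro h
  have h1 : (mD (ZMod 251)).det = 0 := by
    rw [← map_mD (Int.castRingHom (ZMod 251)), ← RingHom.mapMatrix_apply, ← RingHom.map_det, h,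
      map_zero]
  have h2 : (Matrix.of fun k i : Fin 217 => ((beta k i : ℕ) : ZMod 251)) * mD (ZMod 251) = 1 := by
    ext k j
    rw [Matrix.mul_apply, Matrix.one_apply]
    have h3 := beta_spec k k.2 j j.2
    rw [Finset.sum_range] at h3
    have h4 : (if (j : ℕ) = (k : ℕ) then (1 : ZMod 251) else 0) = if k = j then 1 else 0 := by
      by_cases hkj : k = j
      · subst hkj
        simp
      · rw [if_neg hkj, if_neg]
        intro hc
        exact hkj (Fin.ext hc.symm)
    rw [← h4, ← h3]
    rfl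
  have h3 := congrArg Matrix.det h2
  rw [Matrix.det_mul, h1, mul_zero, Matrix.det_one] at h3
  have : Nontrivial (ZMod 251) := ZMod.nontrivial_iff.mpr (by norm_num)
  exact zero_ne_one h3

/-- the derivatives span the space of polynomials of degree at most `216` -/
theorem span_D (b : Fin 217 → ℂ) : ∃ u : ℕ → ℂ, ∀ j : Fin 217,
    ∑ i ∈ range 217, u i * PowerSeries.coeff j (sD ℂ i) = b j := by
  have h1 : (mD ℂ).det ≠ 0 := by
    rw [← map_mD (Int.castRingHom ℂ), ← RingHom.mapMatrix_apply, ← RingHom.map_det]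
    intro h
    exact det_mD ((map_eq_zero_iff (Int.castRingHom ℂ) Int.cast_injective).mp h)
  have h2 : IsUnit (mD ℂ) := (Matrix.isUnit_iff_isUnit_det _).mpr (isUnit_iff_ne_zero.mpr h1)
  obtain ⟨N, hN⟩ := h2.exists_left_inv
  let v : Fin 217 → ℂ := Matrix.vecMul b N
  refine ⟨fun i => if h : i < 217 then v ⟨i, h⟩ else 0, fun j => ?_⟩
  have h3 : Matrix.vecMul v (mD ℂ) = b := by
    change Matrix.vecMul (Matrix.vecMul b N) (mD ℂ) = b
    rw [Matrix.vecMul_vecMul, hN, Matrix.vecMul_one]
  rw [Finset.sum_range]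
  have h4 := congrFun h3 j
  rw [← h4]
  unfold Matrix.vecMul dotProduct
  apply Finset.sum_congr rfl
  intro i _
  have h5 : (if h : (i : ℕ) < 217 then v ⟨i, h⟩ else 0) = v i := by
    rw [dif_pos i.2]
  change (if h : (i : ℕ) < 217 then v ⟨i, h⟩ else 0) * _ = _
  rw [h5]
  rfl

end Pool.Agent.X29.NN
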