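import Mathlib

set_option autoImplicit false

/-!
# Depth four networks with two inputs and one output, activation `x ^ 6`
-/

namespace Pool.Agent.X29.NN

open Finset

section Net

variable {R : Type} [CommRing R]

/-- the network, with the second input specialised at `1` -/
noncomputable def netS (a b c : ℕ) (w0 w1 w2 w3 : ℕ → ℕ → R) : PowerSeries R :=
  ∑ k ∈ range c, PowerSeries.C (w3 0 k) * (∑ j ∈ range b, PowerSeries.C (w2 k j) *
    (∑ i ∈ range a, PowerSeries.C (w1 j i) *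
      (PowerSeries.C (w0 i 0) * PowerSeries.X + PowerSeries.C (w0 i 1)) ^ 6) ^ 6) ^ 6

theorem map_netS {S : Type} [CommRing S] (φ : R →+* S) (a b c : ℕ) (w0 w1 w2 w3 : ℕ → ℕ → R) :
    PowerSeries.map φ (netS a b c w0 w1 w2 w3) = netS a b c (fun i j => φ (w0 i j))
      (fun i j => φ (w1 i j)) (fun i j => φ (w2 i j)) (fun i j => φ (w3 i j)) := by
  unfold netS
  simp only [map_sum, map_mul, map_pow, map_add, PowerSeries.map_C, PowerSeries.map_X]

/-- the normalised network -/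
noncomputable def netN (a b c : ℕ) (z0 : ℕ → R) (z1 z2 : ℕ → ℕ → R) (z3 : ℕ → R) :
    PowerSeries R :=
  ∑ k ∈ range c, PowerSeries.C (z3 k) *
    (∑ j ∈ range b, (if j = 0 then 1 else PowerSeries.C (z2 k (j - 1))) *
    (∑ i ∈ range a, (if i = 0 then 1 else PowerSeries.C (z1 j (i - 1))) *
      (PowerSeries.X + PowerSeries.C (z0 i)) ^ 6) ^ 6) ^ 6

theorem map_netN {S : Type} [CommRing S] (φ : R →+* S) (a b c : ℕ) (z0 : ℕ → R)
    (z1 z2 : ℕ → ℕ → R) (z3 : ℕ → R) :
    PowerSeries.map φ (netN a b c z0 z1 z2 z3) = netN a b c (fun i => φ (z0 i))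
      (fun i j => φ (z1 i j)) (fun i j => φ (z2 i j)) (fun i => φ (z3 i)) := by
  unfold netN
  simp only [map_sum, map_mul, map_pow, map_add, PowerSeries.map_C, PowerSeries.map_X,
    apply_ite (PowerSeries.map φ), map_one]

theorem netN_congr (a b c : ℕ) {z0 y0 : ℕ → R} {z1 y1 z2 y2 : ℕ → ℕ → R} {z3 y3 : ℕ → R}
    (h0 : ∀ i, i < a → z0 i = y0 i) (h1 : ∀ j i, j < b → i < a - 1 → z1 j i = y1 j i)
    (h2 : ∀ k j, k < c → j < b - 1 → z2 k j = y2 k j) (h3 : ∀ k, k < c → z3 k = y3 k) :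
    netN a b c z0 z1 z2 z3 = netN a b c y0 y1 y2 y3 := by
  have e1 : ∀ j, j < b → (∑ i ∈ range a, (if i = 0 then 1 else PowerSeries.C (z1 j (i - 1))) *
      (PowerSeries.X + PowerSeries.C (z0 i)) ^ 6) =
      ∑ i ∈ range a, (if i = 0 then 1 else PowerSeries.C (y1 j (i - 1))) *
      (PowerSeries.X + PowerSeries.C (y0 i)) ^ 6 := by
    intro j hj
    apply Finset.sum_congr rfl
    intro i hi
    rw [Finset.mem_range] at hi
    rw [h0 i hi]
    by_cases h : i = 0
    · rw [if_pos h, if_pos h]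
    · rw [if_neg h, if_neg h, h1 j (i - 1) hj (by omega)]
  have e2 : ∀ k, k < c → (∑ j ∈ range b, (if j = 0 then 1 else PowerSeries.C (z2 k (j - 1))) *
      (∑ i ∈ range a, (if i = 0 then 1 else PowerSeries.C (z1 j (i - 1))) *
      (PowerSeries.X + PowerSeries.C (z0 i)) ^ 6) ^ 6) =
      ∑ j ∈ range b, (if j = 0 then 1 else PowerSeries.C (y2 k (j - 1))) *
      (∑ i ∈ range a, (if i = 0 then 1 else PowerSeries.C (y1 j (i - 1))) *
      (PowerSeries.X + PowerSeries.C (y0 i)) ^ 6) ^ 6 := by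
    intro k hk
    apply Finset.sum_congr rfl
    intro j hj
    rw [Finset.mem_range] at hj
    rw [e1 j hj]
    by_cases h : j = 0
    · rw [if_pos h, if_pos h]
    · rw [if_neg h, if_neg h, h2 k (j - 1) hk (by omega)]
  unfold netN
  apply Finset.sum_congr rfl
  intro k hk
  rw [Finset.mem_range] at hk
  rw [h3 k hk, e2 k hk]

end Net

section Norm

variable {K : Type} [Field K]

theorem norm_net (a b c : ℕ) (w0 w1 w2 w3 : ℕ → ℕ → K) (h0 : ∀ i, w0 i 0 ≠ 0)
    (h1 : ∀ j, w1 j 0 ≠ 0) (h2 : ∀ k, w2 k 0 ≠ 0) :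
    ∃ (z0 : ℕ → K) (z1 z2 : ℕ → ℕ → K) (z3 : ℕ → K),
      netS a b c w0 w1 w2 w3 = netN a b c z0 z1 z2 z3 := by
  let u1 : ℕ → ℕ → K := fun j i => w1 j i * (w0 i 0) ^ 6
  let u2 : ℕ → ℕ → K := fun k j => w2 k j * (u1 j 0) ^ 6
  let u3 : ℕ → K := fun k => w3 0 k * (u2 k 0) ^ 6
  have hu1 : ∀ j, u1 j 0 ≠ 0 := fun j => mul_ne_zero (h1 j) (pow_ne_zero _ (h0 0))
  have hu2 : ∀ k, u2 k 0 ≠ 0 := fun k => mul_ne_zero (h2 k) (pow_ne_zero _ (hu1 0))
  refine ⟨fun i => w0 i 1 / w0 i 0, fun j i => u1 j (i + 1) / u1 j 0,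
    fun k j => u2 k (j + 1) / u2 k 0, u3, ?_⟩
  have e0 : ∀ i, PowerSeries.C (w0 i 0) * PowerSeries.X + PowerSeries.C (w0 i 1) =
      PowerSeries.C (w0 i 0) * (PowerSeries.X + PowerSeries.C (w0 i 1 / w0 i 0)) := by
    intro i
    rw [mul_add, ← map_mul, mul_div_cancel₀ _ (h0 i)]
  have e1 : ∀ j, ∑ i ∈ range a, PowerSeries.C (w1 j i) *
      (PowerSeries.C (w0 i 0) * PowerSeries.X + PowerSeries.C (w0 i 1)) ^ 6 =
      PowerSeries.C (u1 j 0) * ∑ i ∈ range a,
        (if i = 0 then 1 else PowerSeries.C (u1 j (i - 1 + 1) / u1 j 0)) *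
        (PowerSeries.X + PowerSeries.C (w0 i 1 / w0 i 0)) ^ 6 := by
    intro j
    rw [Finset.mul_sum]
    apply Finset.sum_congr rfl
    intro i _
    rw [e0 i, mul_pow, ← mul_assoc, ← mul_assoc, ← map_pow, ← map_mul]
    congr 1
    by_cases hi : i = 0
    · rw [if_pos hi, hi, mul_one]
    · rw [if_neg hi, ← map_mul, mul_div_cancel₀ _ (hu1 j)]
      congr 1
      have e : i - 1 + 1 = i := by omega
      rw [e]
  have e2 : ∀ k, ∑ j ∈ range b, PowerSeries.C (w2 k j) * (∑ i ∈ range a, PowerSeries.C (w1 j i) *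
      (PowerSeries.C (w0 i 0) * PowerSeries.X + PowerSeries.C (w0 i 1)) ^ 6) ^ 6 =
      PowerSeries.C (u2 k 0) * ∑ j ∈ range b,
        (if j = 0 then 1 else PowerSeries.C (u2 k (j - 1 + 1) / u2 k 0)) *
        (∑ i ∈ range a,
        (if i = 0 then 1 else PowerSeries.C (u1 j (i - 1 + 1) / u1 j 0)) *
        (PowerSeries.X + PowerSeries.C (w0 i 1 / w0 i 0)) ^ 6) ^ 6 := by
    intro k
    rw [Finset.mul_sum]
    apply Finset.sum_congr rfl
    intro j _
    rw [e1 j, mul_pow, ← mul_assoc, ← mul_assoc, ← map_pow, ← map_mul]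
    congr 1
    by_cases hj : j = 0
    · rw [if_pos hj, hj, mul_one]
    · rw [if_neg hj, ← map_mul, mul_div_cancel₀ _ (hu2 k)]
      congr 1
      have e : j - 1 + 1 = j := by omega
      rw [e]
  unfold netS netN
  apply Finset.sum_congr rfl
  intro k _
  rw [e2 k, mul_pow, ← mul_assoc, ← map_pow, ← map_mul]

end Norm

/-! ### algebraic dependence -/

/-- the parameters of a normalised network -/
abbrev Par (a b c : ℕ) : Type :=
  (Fin a ⊕ (Fin b × Fin (a - 1))) ⊕ ((Fin c × Fin (b - 1)) ⊕ Fin c)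

theorem card_Par (a b c : ℕ) : Fintype.card (Par a b c) = (a + b * (a - 1)) + (c * (b - 1) + c) := by
  simp

noncomputable def genN (a b c : ℕ) : PowerSeries (MvPolynomial (Par a b c) ℂ) :=
  netN a b c
    (fun i => if h : i < a then MvPolynomial.X (Sum.inl (Sum.inl ⟨i, h⟩)) else 0)
    (fun j i => if h : j < b ∧ i < a - 1 then
      MvPolynomial.X (Sum.inl (Sum.inr (⟨j, h.1⟩, ⟨i, h.2⟩))) else 0)
    (fun k j => if h : k < c ∧ j < b - 1 then
      MvPolynomial.X (Sum.inr (Sum.inl (⟨k, h.1⟩, ⟨j, h.2⟩))) else 0)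
    (fun k => if h : k < c then MvPolynomial.X (Sum.inr (Sum.inr ⟨k, h⟩)) else 0)

theorem map_genN (a b c : ℕ) {K : Type} [Field K] [Algebra ℂ K] (z0 : ℕ → K) (z1 z2 : ℕ → ℕ → K)
    (z3 : ℕ → K) : ∃ t : Par a b c → K,
      PowerSeries.map (MvPolynomial.aeval t : MvPolynomial (Par a b c) ℂ →ₐ[ℂ] K).toRingHom
        (genN a b c) = netN a b c z0 z1 z2 z3 := by
  refine ⟨fun p => match p with
    | Sum.inl (Sum.inl i) => z0 i
    | Sum.inl (Sum.inr (j, i)) => z1 j i
    | Sum.inr (Sum.inl (k, j)) => z2 k j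
    | Sum.inr (Sum.inr k) => z3 k, ?_⟩
  unfold genN
  rw [map_netN]
  apply netN_congr
  · intro i hi
    rw [dif_pos hi]
    exact MvPolynomial.aeval_X _ _
  · intro j i hj hi
    rw [dif_pos ⟨hj, hi⟩]
    exact MvPolynomial.aeval_X _ _
  · intro k j hk hj
    rw [dif_pos ⟨hk, hj⟩]
    exact MvPolynomial.aeval_X _ _
  · intro k hk
    rw [dif_pos hk]
    exact MvPolynomial.aeval_X _ _

theorem card_le {a b c : ℕ} (ha : a ≤ 6) (hb : b ≤ 5) (hc : c ≤ 38) (ha1 : 1 ≤ a) (hb1 : 1 ≤ b)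
    (h : ¬ (a = 6 ∧ b = 5 ∧ c = 38)) :
    (a + b * (a - 1)) + (c * (b - 1) + c) ≤ 216 := by
  interval_cases a <;> interval_cases b <;> omega

theorem exists_dep {a b c : ℕ} (h : (a + b * (a - 1)) + (c * (b - 1) + c) ≤ 216) :
    ∃ Q : MvPolynomial (Fin 217) ℂ, Q ≠ 0 ∧
      MvPolynomial.aeval (fun i : Fin 217 => PowerSeries.coeff (i : ℕ) (genN a b c)) Q = 0 := by
  by_contra hcon
  push Not at hcon
  have hind : AlgebraicIndependent ℂ
      (fun i : Fin 217 => PowerSeries.coeff (i : ℕ) (genN a b c)) := by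
    rw [AlgebraicIndependent, injective_iff_map_eq_zero]
    intro Q hQ
    by_contra hne
    exact hcon Q hne hQ
  have h1 := hind.cardinalMk_le_trdeg
  rw [MvPolynomial.trdeg_of_isDomain, Cardinal.lift_id, Cardinal.mk_fintype, Cardinal.mk_fintype,
    card_Par, Fintype.card_fin] at h1
  have h2 : 217 ≤ (a + b * (a - 1)) + (c * (b - 1) + c) := by exact_mod_cast h1
  omega

/-- the coefficients of all networks satisfy the same equation -/
theorem dep_net {a b c : ℕ} {Q : MvPolynomial (Fin 217) ℂ}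
    (hQ : MvPolynomial.aeval (fun i : Fin 217 => PowerSeries.coeff (i : ℕ) (genN a b c)) Q = 0)
    (w0 w1 w2 w3 : ℕ → ℕ → ℂ) :
    MvPolynomial.eval (fun i : Fin 217 => PowerSeries.coeff (i : ℕ) (netS a b c w0 w1 w2 w3)) Q
      = 0 := by
  let R := MvPolynomial (Fin 4 × ℕ × ℕ) ℂ
  let K := FractionRing R
  let x : Fin 4 → ℕ → ℕ → R := fun k i j => MvPolynomial.X (k, i, j)
  let ι : R →+* K := algebraMap R K
  have hι : Function.Injective ι := IsFractionRing.injective R K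
  have hx : ∀ k i j, ι (x k i j) ≠ 0 := by
    intro k i j h
    rw [map_eq_zero_iff ι hι] at h
    exact MvPolynomial.X_ne_zero (R := ℂ) (k, i, j) h
  obtain ⟨z0, z1, z2, z3, hz⟩ := norm_net a b c (fun i j => ι (x 0 i j)) (fun i j => ι (x 1 i j))
    (fun i j => ι (x 2 i j)) (fun i j => ι (x 3 i j)) (fun i => hx 0 i 0) (fun i => hx 1 i 0)
    (fun i => hx 2 i 0)
  obtain ⟨t, ht⟩ := map_genN a b c z0 z1 z2 z3
  rw [← ht, ← map_netS ι] at hz
  -- the generic equation
  have hgen : MvPolynomial.aeval (fun i : Fin 217 =>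
      PowerSeries.coeff (i : ℕ) (netS a b c (x 0) (x 1) (x 2) (x 3))) Q = 0 := by
    apply hι
    rw [map_zero]
    have e1 : ι (MvPolynomial.aeval (fun i : Fin 217 =>
        PowerSeries.coeff (i : ℕ) (netS a b c (x 0) (x 1) (x 2) (x 3))) Q) =
        MvPolynomial.aeval (fun i : Fin 217 =>
          ι (PowerSeries.coeff (i : ℕ) (netS a b c (x 0) (x 1) (x 2) (x 3)))) Q := by
      have := MvPolynomial.map_aeval (fun i : Fin 217 =>
        PowerSeries.coeff (i : ℕ) (netS a b c (x 0) (x 1) (x 2) (x 3))) ι Q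
      rw [this, MvPolynomial.aeval_def]
      rfl
    have e2 : ∀ i : ℕ, ι (PowerSeries.coeff i (netS a b c (x 0) (x 1) (x 2) (x 3))) =
        MvPolynomial.aeval t (PowerSeries.coeff i (genN a b c)) := by
      intro i
      have h1 := congrArg (PowerSeries.coeff i) hz
      rw [PowerSeries.coeff_map, PowerSeries.coeff_map] at h1
      exact h1
    rw [e1]
    simp only [e2]
    have e3 : MvPolynomial.aeval (fun i : Fin 217 =>
        MvPolynomial.aeval t (PowerSeries.coeff (i : ℕ) (genN a b c))) Q =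
        MvPolynomial.aeval t (MvPolynomial.aeval (fun i : Fin 217 =>
          PowerSeries.coeff (i : ℕ) (genN a b c)) Q) := by
      rw [← AlgHom.comp_apply, MvPolynomial.comp_aeval]
    rw [e3, hQ, map_zero]
  let w : Fin 4 → ℕ → ℕ → ℂ := ![w0, w1, w2, w3]
  let ev : R →ₐ[ℂ] ℂ := MvPolynomial.aeval (fun p : Fin 4 × ℕ × ℕ => w p.1 p.2.1 p.2.2)
  have h1 := congrArg ev hgen
  rw [map_zero, ← AlgHom.comp_apply, MvPolynomial.comp_aeval] at h1
  have e4 : ∀ i : ℕ, ev (PowerSeries.coeff i (netS a b c (x 0) (x 1) (x 2) (x 3))) =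
      PowerSeries.coeff i (netS a b c w0 w1 w2 w3) := by
    intro i
    have h2 := map_netS ev.toRingHom a b c (x 0) (x 1) (x 2) (x 3)
    have h3 := congrArg (PowerSeries.coeff i) h2
    rw [PowerSeries.coeff_map] at h3
    have e5 : ∀ k i j, ev.toRingHom (x k i j) = w k i j := fun k i j => MvPolynomial.aeval_X _ _
    simp only [e5] at h3
    exact h3
  simp only [e4] at h1
  rw [← MvPolynomial.coe_aeval_eq_eval]
  exact h1

end Pool.Agent.X29.NN
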