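import Pool.Agent.X29.NN.Inv
import Pool.Agent.X29.NN.Net
import Pool.Agent.X29.NN.Dens

set_option autoImplicit false

/-!
# First order expansion of the network at the special weights
-/

namespace Pool.Agent.X29.NN

open Finset

section Alg

variable {A : Type} [CommRing A]

theorem alg1 (d2 V : ℕ → ℕ → A) (g h hd : ℕ → A) :
    ∑ k ∈ range 38, 6 * g k ^ 5 * (∑ j ∈ range 5, (V k j * (6 * h j ^ 5 * hd j) +
      d2 k j * h j ^ 6)) =
    ∑ k ∈ range 38, ∑ j ∈ range 5, d2 k j * (6 * (g k ^ 5 * h j ^ 6)) +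
      ∑ j ∈ range 5, 36 * ((∑ k ∈ range 38, V k j * g k ^ 5) * h j ^ 5) * hd j := by
  have e2 : ∑ j ∈ range 5, 36 * ((∑ k ∈ range 38, V k j * g k ^ 5) * h j ^ 5) * hd j =
      ∑ k ∈ range 38, ∑ j ∈ range 5, 36 * (V k j * g k ^ 5 * h j ^ 5) * hd j := by
    rw [Finset.sum_comm]
    apply Finset.sum_congr rfl
    intro j _
    rw [Finset.sum_mul, Finset.mul_sum, Finset.sum_mul]
  rw [e2, ← Finset.sum_add_distrib]
  apply Finset.sum_congr rfl
  intro k _
  rw [← Finset.sum_add_distrib, Finset.mul_sum]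
  apply Finset.sum_congr rfl
  intro j _
  ring

theorem alg2 (d1 U : ℕ → ℕ → A) (T l ld : ℕ → A) :
    ∑ j ∈ range 5, 36 * T j * (∑ i ∈ range 6, (U j i * (6 * l i ^ 5 * ld i) +
      d1 j i * l i ^ 6)) =
    ∑ j ∈ range 5, ∑ i ∈ range 6, d1 j i * (36 * (T j * l i ^ 6)) +
      ∑ i ∈ range 6, ld i * (216 * ((∑ j ∈ range 5, U j i * T j) * l i ^ 5)) := by
  have e2 : ∑ i ∈ range 6, ld i * (216 * ((∑ j ∈ range 5, U j i * T j) * l i ^ 5)) =
      ∑ j ∈ range 5, ∑ i ∈ range 6, ld i * (216 * (U j i * T j * l i ^ 5)) := by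
    rw [Finset.sum_comm]
    apply Finset.sum_congr rfl
    intro i _
    rw [Finset.sum_mul, Finset.mul_sum, Finset.mul_sum]
  rw [e2, ← Finset.sum_add_distrib]
  apply Finset.sum_congr rfl
  intro j _
  rw [← Finset.sum_add_distrib, Finset.mul_sum]
  apply Finset.sum_congr rfl
  intro i _
  ring

theorem sum_block (m n : ℕ) (f : ℕ → A) :
    ∑ i ∈ range (n * m), f i = ∑ k ∈ range m, ∑ j ∈ range n, f (n * k + j) := by
  induction m with
  | zero => simp
  | succ m ih =>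
    rw [Nat.mul_succ, Finset.sum_range_add, Finset.sum_range_succ, ih]

end Alg

/-- perturbations -/
def d2 (u : ℕ → ℂ) (k j : ℕ) : ℂ := u (5 * k + j)
def d1 (u : ℕ → ℂ) (j i : ℕ) : ℂ := if i = 0 then 0 else u (190 + (5 * j + (i - 1)))
def d0 (u : ℕ → ℂ) (i : ℕ) : ℂ := if i < 2 then u (215 + i) else 0

noncomputable def hd (u : ℕ → ℂ) (j : ℕ) : PowerSeries ℂ :=
  ∑ i ∈ range 6, ((Un j i : PowerSeries ℂ) * (6 * sl ℂ i ^ 5 * PowerSeries.C (d0 u i)) +
    PowerSeries.C (d1 u j i) * sl ℂ i ^ 6)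

noncomputable def gd (u : ℕ → ℂ) (k : ℕ) : PowerSeries ℂ :=
  ∑ j ∈ range 5, ((Vn k j : PowerSeries ℂ) * (6 * sh ℂ j ^ 5 * hd u j) +
    PowerSeries.C (d2 u k j) * sh ℂ j ^ 6)

noncomputable def Fd (u : ℕ → ℂ) : PowerSeries ℂ :=
  ∑ k ∈ range 38, 6 * sg ℂ k ^ 5 * gd u k

theorem Fd_eq (u : ℕ → ℂ) : Fd u = ∑ i ∈ range 217, PowerSeries.C (u i) * sD ℂ i := by
  have e1 : Fd u = ∑ k ∈ range 38, ∑ j ∈ range 5,
      PowerSeries.C (d2 u k j) * (6 * (sg ℂ k ^ 5 * sh ℂ j ^ 6)) +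
      ∑ j ∈ range 5, 36 * sT ℂ j * hd u j := by
    unfold Fd gd
    rw [alg1]
    rfl
  have e2 : ∑ j ∈ range 5, 36 * sT ℂ j * hd u j =
      ∑ j ∈ range 5, ∑ i ∈ range 6, PowerSeries.C (d1 u j i) * (36 * (sT ℂ j * sl ℂ i ^ 6)) +
      ∑ i ∈ range 6, PowerSeries.C (d0 u i) * (216 * (sQ ℂ i * sl ℂ i ^ 5)) := by
    unfold hd
    rw [alg2]
    rfl
  have e3 : ∑ i ∈ range 217, PowerSeries.C (u i) * sD ℂ i =
      ∑ i ∈ range (5 * 38), PowerSeries.C (u i) * sD ℂ i +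
      (∑ i ∈ range (5 * 5), PowerSeries.C (u (190 + i)) * sD ℂ (190 + i) +
      ∑ i ∈ range 2, PowerSeries.C (u (215 + i)) * sD ℂ (215 + i)) := by
    have e : (217 : ℕ) = 5 * 38 + 5 * 5 + 2 := by norm_num
    rw [e, Finset.sum_range_add, Finset.sum_range_add, add_assoc]
  have e4 : ∑ i ∈ range (5 * 38), PowerSeries.C (u i) * sD ℂ i = ∑ k ∈ range 38, ∑ j ∈ range 5,
      PowerSeries.C (d2 u k j) * (6 * (sg ℂ k ^ 5 * sh ℂ j ^ 6)) := by
    rw [sum_block]
    apply Finset.sum_congr rfl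
    intro k hk
    apply Finset.sum_congr rfl
    intro j hj
    rw [Finset.mem_range] at hk hj
    unfold sD
    rw [if_pos (by omega)]
    have h1 : (5 * k + j) / 5 = k := by omega
    have h2 : (5 * k + j) % 5 = j := by omega
    rw [h1, h2]
    rfl
  have e5 : ∑ i ∈ range (5 * 5), PowerSeries.C (u (190 + i)) * sD ℂ (190 + i) =
      ∑ j ∈ range 5, ∑ i ∈ range 6, PowerSeries.C (d1 u j i) * (36 * (sT ℂ j * sl ℂ i ^ 6)) := by
    rw [sum_block]
    apply Finset.sum_congr rfl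
    intro j hj
    rw [Finset.mem_range] at hj
    have e : (6 : ℕ) = 5 + 1 := by norm_num
    rw [e, Finset.sum_range_succ' _ 5]
    have h0 : d1 u j 0 = 0 := if_pos rfl
    rw [h0, map_zero, zero_mul, add_zero]
    apply Finset.sum_congr rfl
    intro i hi
    rw [Finset.mem_range] at hi
    unfold sD
    rw [if_neg (by omega), if_pos (by omega)]
    have h1 : (190 + (5 * j + i) - 190) / 5 = j := by omega
    have h2 : (190 + (5 * j + i) - 190) % 5 = i := by omega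
    rw [h1, h2]
    rfl
  have e6 : ∑ i ∈ range 2, PowerSeries.C (u (215 + i)) * sD ℂ (215 + i) =
      ∑ i ∈ range 6, PowerSeries.C (d0 u i) * (216 * (sQ ℂ i * sl ℂ i ^ 5)) := by
    have e : (6 : ℕ) = 2 + 4 := by norm_num
    rw [e, Finset.sum_range_add _ 2 4]
    have h0 : ∀ i, d0 u (2 + i) = 0 := fun i => if_neg (by omega)
    have h1 : ∑ x ∈ range 4, PowerSeries.C (d0 u (2 + x)) *
        (216 * (sQ ℂ (2 + x) * sl ℂ (2 + x) ^ 5)) = 0 := by
      apply Finset.sum_eq_zero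
      intro i _
      rw [h0, map_zero, zero_mul]
    rw [h1, add_zero]
    apply Finset.sum_congr rfl
    intro i hi
    rw [Finset.mem_range] at hi
    unfold sD
    rw [if_neg (by omega), if_neg (by omega)]
    have h1 : 215 + i - 215 = i := by omega
    have h2 : d0 u i = u (215 + i) := if_pos hi
    rw [h1, h2]
    rfl
  rw [e1, e2, e3, e4, e5, e6]

/-! ### the perturbed network -/

/-- the perturbed weights -/
noncomputable def v0 (u : ℕ → ℂ) (i j : ℕ) : Polynomial ℂ :=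
  if j = 0 then 1 else Polynomial.C (i : ℂ) + Polynomial.X * Polynomial.C (d0 u i)
noncomputable def v1 (u : ℕ → ℂ) (j i : ℕ) : Polynomial ℂ :=
  Polynomial.C (Un j i : ℂ) + Polynomial.X * Polynomial.C (d1 u j i)
noncomputable def v2 (u : ℕ → ℂ) (k j : ℕ) : Polynomial ℂ :=
  Polynomial.C (Vn k j : ℂ) + Polynomial.X * Polynomial.C (d2 u k j)

/-- the base point -/
noncomputable def F0 : PowerSeries ℂ := ∑ k ∈ range 38, sg ℂ k ^ 6

noncomputable abbrev jj : PowerSeries ℂ →+* PowerSeries (Polynomial ℂ) :=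
  PowerSeries.map Polynomial.C

noncomputable abbrev SS : PowerSeries (Polynomial ℂ) := PowerSeries.C Polynomial.X

theorem CC (a : ℂ) : (PowerSeries.C (Polynomial.C a) : PowerSeries (Polynomial ℂ)) =
    jj (PowerSeries.C a) := by
  rw [PowerSeries.map_C]

theorem Cnat (n : ℕ) : (PowerSeries.C (n : ℂ) : PowerSeries ℂ) = (n : PowerSeries ℂ) := by
  rw [map_natCast]

theorem lin_l (u : ℕ → ℂ) (i : ℕ) :
    Lin SS (PowerSeries.C (v0 u i 0) * PowerSeries.X + PowerSeries.C (v0 u i 1))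
      (jj (sl ℂ i)) (jj (PowerSeries.C (d0 u i))) := by
  refine ⟨0, ?_⟩
  have e0 : v0 u i 0 = 1 := if_pos rfl
  have e1 : v0 u i 1 = Polynomial.C (i : ℂ) + Polynomial.X * Polynomial.C (d0 u i) :=
    if_neg one_ne_zero
  rw [e0, e1, map_one, one_mul, map_add, map_mul, CC, CC, Cnat]
  unfold sl
  rw [map_add, PowerSeries.map_X]
  ring

theorem lin_h (u : ℕ → ℂ) (j : ℕ) :
    Lin SS (∑ i ∈ range 6, PowerSeries.C (v1 u j i) *
      (PowerSeries.C (v0 u i 0) * PowerSeries.X + PowerSeries.C (v0 u i 1)) ^ 6)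
      (jj (sh ℂ j)) (jj (hd u j)) := by
  unfold sh hd
  rw [map_sum, map_sum]
  apply Lin.sum
  intro i _
  have h1 : Lin SS (PowerSeries.C (v1 u j i)) (jj (Un j i : PowerSeries ℂ))
      (jj (PowerSeries.C (d1 u j i))) := by
    refine ⟨0, ?_⟩
    unfold v1
    rw [map_add, map_mul, CC, CC, Cnat]
    ring
  have h2 := (lin_l u i).pow6.mul h1
  rw [map_add, map_mul, map_mul, map_mul, map_mul, map_mul, map_pow, map_pow, map_ofNat]
  exact h2

theorem lin_g (u : ℕ → ℂ) (k : ℕ) :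
    Lin SS (∑ j ∈ range 5, PowerSeries.C (v2 u k j) * (∑ i ∈ range 6, PowerSeries.C (v1 u j i) *
      (PowerSeries.C (v0 u i 0) * PowerSeries.X + PowerSeries.C (v0 u i 1)) ^ 6) ^ 6)
      (jj (sg ℂ k)) (jj (gd u k)) := by
  unfold sg gd
  rw [map_sum, map_sum]
  apply Lin.sum
  intro j _
  have h1 : Lin SS (PowerSeries.C (v2 u k j)) (jj (Vn k j : PowerSeries ℂ))
      (jj (PowerSeries.C (d2 u k j))) := by
    refine ⟨0, ?_⟩
    unfold v2
    rw [map_add, map_mul, CC, CC, Cnat]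
    ring
  have h2 := (lin_h u j).pow6.mul h1
  rw [map_add, map_mul, map_mul, map_mul, map_mul, map_mul, map_pow, map_pow, map_ofNat]
  exact h2

theorem lin_F (u : ℕ → ℂ) :
    Lin SS (netS 6 5 38 (v0 u) (v1 u) (v2 u) (fun _ _ => 1)) (jj F0) (jj (Fd u)) := by
  unfold netS F0 Fd
  rw [map_sum, map_sum]
  apply Lin.sum
  intro k _
  have h2 := (lin_g u k).pow6
  rw [map_one, one_mul, map_mul, map_mul, map_pow, map_pow, map_ofNat]
  exact h2

/-- the expansion of the coefficients -/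
theorem coeff_net (u : ℕ → ℂ) (j : ℕ) : ∃ r : Polynomial ℂ,
    PowerSeries.coeff j (netS 6 5 38 (v0 u) (v1 u) (v2 u) (fun _ _ => 1)) =
      Polynomial.C (PowerSeries.coeff j F0) + Polynomial.X *
        Polynomial.C (∑ i ∈ range 217, u i * PowerSeries.coeff j (sD ℂ i)) +
        Polynomial.X ^ 2 * r := by
  obtain ⟨r, hr⟩ := lin_F u
  refine ⟨PowerSeries.coeff j r, ?_⟩
  rw [hr, map_add, map_add, ← map_pow, PowerSeries.coeff_C_mul, PowerSeries.coeff_C_mul,
    PowerSeries.coeff_map, PowerSeries.coeff_map, Fd_eq, map_sum]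
  simp only [PowerSeries.coeff_C_mul]

/-- the coefficient map has dense image -/
theorem dense_net (Q : MvPolynomial (Fin 217) ℂ)
    (h : ∀ w0 w1 w2 : ℕ → ℕ → ℂ, MvPolynomial.eval (fun i : Fin 217 =>
      PowerSeries.coeff (i : ℕ) (netS 6 5 38 w0 w1 w2 (fun _ _ => 1))) Q = 0) : Q = 0 := by
  apply dens Q (fun i => PowerSeries.coeff (i : ℕ) F0)
  intro b
  obtain ⟨u, hu⟩ := span_D b
  choose r hr using coeff_net u
  refine ⟨fun j => r j, ?_⟩
  have e1 : (fun j : Fin 217 => Polynomial.C (PowerSeries.coeff (j : ℕ) F0) +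
      Polynomial.X * Polynomial.C (b j) + Polynomial.X ^ 2 * r j) =
      fun j : Fin 217 => PowerSeries.coeff (j : ℕ)
        (netS 6 5 38 (v0 u) (v1 u) (v2 u) (fun _ _ => 1)) := by
    funext j
    rw [hr j, hu j]
  rw [e1]
  apply Polynomial.funext
  intro s
  rw [Polynomial.eval_zero, ← Polynomial.coe_aeval_eq_eval, ← AlgHom.comp_apply,
    MvPolynomial.comp_aeval]
  have e2 : ∀ i : ℕ, (Polynomial.aeval s) (PowerSeries.coeff i
      (netS 6 5 38 (v0 u) (v1 u) (v2 u) (fun _ _ => 1))) =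
      PowerSeries.coeff i (netS 6 5 38 (fun i j => (Polynomial.aeval s) (v0 u i j))
        (fun i j => (Polynomial.aeval s) (v1 u i j)) (fun i j => (Polynomial.aeval s) (v2 u i j))
        (fun _ _ => 1)) := by
    intro i
    have h2 := map_netS (Polynomial.aeval s : Polynomial ℂ →ₐ[ℂ] ℂ).toRingHom 6 5 38
      (v0 u) (v1 u) (v2 u) (fun _ _ => 1)
    have h3 := congrArg (PowerSeries.coeff i) h2
    rw [PowerSeries.coeff_map] at h3
    simp only [map_one] at h3
    exact h3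
  simp only [e2]
  have h4 := h (fun i j => (Polynomial.aeval s) (v0 u i j))
        (fun i j => (Polynomial.aeval s) (v1 u i j)) (fun i j => (Polynomial.aeval s) (v2 u i j))
  rw [← MvPolynomial.coe_aeval_eq_eval] at h4
  exact h4

end Pool.Agent.X29.NN
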