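import Pool.Agent.X29.Asd.Pack
import Pool.Agent.X29.NN.Data

set_option autoImplicit false

/-!
# The packed computation
-/

namespace Pool.Agent.X29.NN

open Pool.Agent.X29.Asd

def Vn (c b : ℕ) : ℕ := Vlit / 16 ^ (5 * c + b) % 16
def Un (b a : ℕ) : ℕ := Ulit / 16 ^ (6 * b + a) % 16

abbrev B : ℕ := 16777216

/-- reduction of the digits modulo `251` -/
def rd (A : ℕ) : ℕ := red B 251 8 A
/-- product -/
def mu (A C : ℕ) : ℕ := rmul B 251 8 A C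

def p5 (A : ℕ) : ℕ := mu (mu (mu A A) (mu A A)) A
def p6 (A : ℕ) : ℕ := mu (mu (mu A A) (mu A A)) (mu A A)

/-- `∑ i < n, f i` -/
def nsum (f : ℕ → ℕ) : ℕ → ℕ
  | 0 => 0
  | n + 1 => nsum f n + f n

/-- packed `x + a` -/
def nl (a : ℕ) : ℕ := a + B
def nl6 (a : ℕ) : ℕ := p6 (nl a)
def nh (b : ℕ) : ℕ := rd (nsum (fun a => Un b a * nl6 a) 6)
def nh6 (b : ℕ) : ℕ := p6 (nh b)
def ng (c : ℕ) : ℕ := rd (nsum (fun b => Vn c b * nh6 b) 5)
def ng5 (c : ℕ) : ℕ := p5 (ng c)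
def nS (b : ℕ) : ℕ := rd (nsum (fun c => Vn c b * ng5 c) 38)
def nT (b : ℕ) : ℕ := mu (nS b) (p5 (nh b))
def nQ (a : ℕ) : ℕ := rd (nsum (fun b => Un b a * nT b) 5)

/-- forced evaluation -/
def frc (n : ℕ) (f : ℕ → ℕ) : ℕ := Nat.rec (f 0) (fun m _ => f (m + 1)) n

theorem frc_eq (n : ℕ) (f : ℕ → ℕ) : frc n f = f n := by
  cases n <;> rfl

def D3 (c b : ℕ) : ℕ := rd (6 * mu (ng5 c) (nh6 b))
def D2 (b a : ℕ) : ℕ := rd (36 * mu (nT b) (nl6 a))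
def D1 (a : ℕ) : ℕ := rd (216 * mu (nQ a) (p5 (nl a)))

def Dn (i : ℕ) : ℕ :=
  if i < 190 then frc (i / 5) fun c => frc (i % 5) fun b => D3 c b
  else if i < 215 then frc ((i - 190) / 5) fun b => frc ((i - 190) % 5) fun a => D2 b (a + 1)
  else frc (i - 215) fun a => D1 a

/-- check a list of rows against the computation -/
def rowsOk : List ℕ → ℕ → Bool
  | [], _ => true
  | d :: t, i => Nat.beq (Dn i) d && rowsOk t (i + 1)

def Dl : List ℕ := Dl0 ++ (Dl1 ++ (Dl2 ++ (Dl3 ++ (Dl4 ++ (Dl5 ++ Dl6)))))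

/-- `∑ (w / 256 ^ i % 256) * l i` -/
def dotp (w : ℕ) : List ℕ → ℕ
  | [] => 0
  | d :: t => w % 256 * d + dotp (w / 256) t

/-- check a list of rows of the inverse matrix -/
def invOk : List ℕ → ℕ → Bool
  | [], _ => true
  | w :: t, k => Nat.beq (rd (dotp w Dl)) (B ^ k) && invOk t (k + 1)

end Pool.Agent.X29.NN
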