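import Pool.Agent.X29.NN.Num

set_option autoImplicit false

/-!
# The series of the network and its derivatives, and their packed representations
-/

namespace Pool.Agent.X29.NN

open Finset Pool.Agent.X29.Asd

section Series

variable (R : Type) [CommRing R]

noncomputable def sl (a : ℕ) : PowerSeries R := PowerSeries.X + (a : PowerSeries R)
noncomputable def sh (b : ℕ) : PowerSeries R := ∑ a ∈ range 6, (Un b a : PowerSeries R) * sl R a ^ 6
noncomputable def sg (c : ℕ) : PowerSeries R := ∑ b ∈ range 5, (Vn c b : PowerSeries R) * sh R b ^ 6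
noncomputable def sS (b : ℕ) : PowerSeries R := ∑ c ∈ range 38, (Vn c b : PowerSeries R) * sg R c ^ 5
noncomputable def sT (b : ℕ) : PowerSeries R := sS R b * sh R b ^ 5
noncomputable def sQ (a : ℕ) : PowerSeries R := ∑ b ∈ range 5, (Un b a : PowerSeries R) * sT R b

noncomputable def sD3 (c b : ℕ) : PowerSeries R := 6 * (sg R c ^ 5 * sh R b ^ 6)
noncomputable def sD2 (b a : ℕ) : PowerSeries R := 36 * (sT R b * sl R a ^ 6)
noncomputable def sD1 (a : ℕ) : PowerSeries R := 216 * (sQ R a * sl R a ^ 5)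

noncomputable def sD (i : ℕ) : PowerSeries R :=
  if i < 190 then sD3 R (i / 5) (i % 5)
  else if i < 215 then sD2 R ((i - 190) / 5) ((i - 190) % 5 + 1)
  else sD1 R (i - 215)

variable {R} {S : Type} [CommRing S] (φ : R →+* S)

theorem map_sl (a : ℕ) : PowerSeries.map φ (sl R a) = sl S a := by
  unfold sl
  rw [map_add, PowerSeries.map_X, map_natCast]
theorem map_sh (b : ℕ) : PowerSeries.map φ (sh R b) = sh S b := by
  unfold sh
  simp only [map_sum, map_mul, map_pow, map_natCast, map_sl]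
theorem map_sg (c : ℕ) : PowerSeries.map φ (sg R c) = sg S c := by
  unfold sg
  simp only [map_sum, map_mul, map_pow, map_natCast, map_sh]
theorem map_sS (b : ℕ) : PowerSeries.map φ (sS R b) = sS S b := by
  unfold sS
  simp only [map_sum, map_mul, map_pow, map_natCast, map_sg]
theorem map_sT (b : ℕ) : PowerSeries.map φ (sT R b) = sT S b := by
  unfold sT
  simp only [map_mul, map_pow, map_sS, map_sh]
theorem map_sQ (a : ℕ) : PowerSeries.map φ (sQ R a) = sQ S a := by
  unfold sQ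
  simp only [map_sum, map_mul, map_natCast, map_sT]
theorem map_sD (i : ℕ) : PowerSeries.map φ (sD R i) = sD S i := by
  unfold sD sD1 sD2 sD3
  split_ifs <;> simp only [map_mul, map_pow, map_ofNat, map_sg, map_sh, map_sT, map_sl, map_sQ]

end Series

/-! ### representations -/

abbrev P (f : PowerSeries (ZMod 251)) (A : ℕ) : Prop := Rep B 251 (2 ^ 8) 250 f A

theorem P_mu {f g : PowerSeries (ZMod 251)} {A C : ℕ} (hf : P f A) (hg : P g C) :
    P (f * g) (mu A C) :=
  Rep.mul (M := 251) (h := 8) (by norm_num) (by norm_num) (by norm_num) hf hg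

theorem P_p5 {f : PowerSeries (ZMod 251)} {A : ℕ} (hf : P f A) : P (f ^ 5) (p5 A) := by
  have h := P_mu (P_mu (P_mu hf hf) (P_mu hf hf)) hf
  have e : f * f * (f * f) * f = f ^ 5 := by ring
  rw [e] at h
  exact h

theorem P_p6 {f : PowerSeries (ZMod 251)} {A : ℕ} (hf : P f A) : P (f ^ 6) (p6 A) := by
  have h := P_mu (P_mu (P_mu hf hf) (P_mu hf hf)) (P_mu hf hf)
  have e : f * f * (f * f) * (f * f) = f ^ 6 := by ring
  rw [e] at h
  exact h

theorem rep_zero {N : ℕ} : Rep B 251 N 0 0 0 := by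
  have h := Rep.of_sum (B := B) (M := 251) (N := N) (L := 0) (by norm_num) (f := 0)
    (x := fun _ => 0) (by intros; exact le_rfl) (by intro i _; simp)
  simpa using h

theorem rep_nsum {N L : ℕ} (f : ℕ → PowerSeries (ZMod 251)) (F : ℕ → ℕ) : ∀ n : ℕ, n * L < B →
    (∀ i, i < n → Rep B 251 N L (f i) (F i)) →
    Rep B 251 N (n * L) (∑ i ∈ range n, f i) (nsum F n) := by
  intro n
  induction n with
  | zero =>
    intro _ _
    rw [Nat.zero_mul, Finset.sum_range_zero]
    exact rep_zero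
  | succ n ih =>
    intro h1 h2
    have h3 : (n + 1) * L = n * L + L := by ring
    rw [h3] at h1 ⊢
    rw [Finset.sum_range_succ]
    exact (ih (by omega) (fun i hi => h2 i (by omega))).add h1 (h2 n (by omega))

theorem P_comb (n : ℕ) (w : ℕ → ℕ) (hw : ∀ i, w i < 16) (hn : n * (15 * 250) < B)
    (f : ℕ → PowerSeries (ZMod 251)) (F : ℕ → ℕ) (h : ∀ i, i < n → P (f i) (F i)) :
    P (∑ i ∈ range n, (w i : PowerSeries (ZMod 251)) * f i) (rd (nsum (fun i => w i * F i) n)) := by
  have h1 := rep_nsum (N := 2 ^ 8) (L := 15 * 250) (fun i => (w i : PowerSeries (ZMod 251)) * f i)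
    (fun i => w i * F i) n hn (by
      intro i hi
      have h0 : w i * 250 ≤ 15 * 250 := Nat.mul_le_mul_right 250 (by have := hw i; omega)
      have h00 : 15 * 250 < B := by norm_num
      exact ((h i hi).smul (w i) (lt_of_le_of_lt h0 h00)).mono h0 h00)
  exact Rep.ofRed (M := 251) (h := 8) (by norm_num) (by norm_num) h1

theorem P_sc (c : ℕ) (hc : c * 250 < B) {f : PowerSeries (ZMod 251)} {A : ℕ} (hf : P f A) :
    P ((c : PowerSeries (ZMod 251)) * f) (rd (c * A)) :=
  Rep.ofRed (M := 251) (h := 8) (by norm_num) (by norm_num) (hf.smul c hc)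

theorem Un_lt (b a : ℕ) : Un b a < 16 := Nat.mod_lt _ (by norm_num)
theorem Vn_lt (b a : ℕ) : Vn b a < 16 := Nat.mod_lt _ (by norm_num)

theorem P_nl (a : ℕ) (ha : a < 6) : P (sl (ZMod 251) a) (nl a) := by
  have e : nl a = ∑ i ∈ range (2 ^ 8), (if i = 0 then a else if i = 1 then 1 else 0) * B ^ i := by
    have e1 : (2 : ℕ) ^ 8 = 254 + 1 + 1 := by norm_num
    rw [e1, Finset.sum_range_succ', Finset.sum_range_succ', Finset.sum_eq_zero]
    · unfold nl
      simp
      ring
    · intro i _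
      simp
  rw [e]
  apply Rep.of_sum (by norm_num)
  · intro i _
    split_ifs <;> omega
  · intro i _
    unfold sl
    have e2 : (a : PowerSeries (ZMod 251)) = PowerSeries.C ((a : ℕ) : ZMod 251) := by
      rw [map_natCast]
    rw [map_add, PowerSeries.coeff_X, e2, PowerSeries.coeff_C]
    rcases i with _ | _ | i
    · simp
    · simp
    · simp

theorem P_nl6 (a : ℕ) (ha : a < 6) : P (sl (ZMod 251) a ^ 6) (nl6 a) := P_p6 (P_nl a ha)

theorem P_nh (b : ℕ) : P (sh (ZMod 251) b) (nh b) :=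
  P_comb 6 (fun a => Un b a) (Un_lt b) (by norm_num) _ _ P_nl6

theorem P_nh6 (b : ℕ) : P (sh (ZMod 251) b ^ 6) (nh6 b) := P_p6 (P_nh b)

theorem P_ng (c : ℕ) : P (sg (ZMod 251) c) (ng c) :=
  P_comb 5 (fun b => Vn c b) (Vn_lt c) (by norm_num) _ _ (fun b _ => P_nh6 b)

theorem P_ng5 (c : ℕ) : P (sg (ZMod 251) c ^ 5) (ng5 c) := P_p5 (P_ng c)

theorem P_nS (b : ℕ) : P (sS (ZMod 251) b) (nS b) :=
  P_comb 38 (fun c => Vn c b) (fun c => Vn_lt c b) (by norm_num) _ _ (fun c _ => P_ng5 c)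

theorem P_nT (b : ℕ) : P (sT (ZMod 251) b) (nT b) := P_mu (P_nS b) (P_p5 (P_nh b))

theorem P_nQ (a : ℕ) : P (sQ (ZMod 251) a) (nQ a) :=
  P_comb 5 (fun b => Un b a) (fun b => Un_lt b a) (by norm_num) _ _ (fun b _ => P_nT b)

theorem P_D3 (c b : ℕ) : P (sD3 (ZMod 251) c b) (D3 c b) := by
  have h := P_sc 6 (by norm_num) (P_mu (P_ng5 c) (P_nh6 b))
  exact h

theorem P_D2 (b a : ℕ) (ha : a < 6) : P (sD2 (ZMod 251) b a) (D2 b a) := by
  have h := P_sc 36 (by norm_num) (P_mu (P_nT b) (P_nl6 a ha))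
  exact h

theorem P_D1 (a : ℕ) (ha : a < 6) : P (sD1 (ZMod 251) a) (D1 a) := by
  have h := P_sc 216 (by norm_num) (P_mu (P_nQ a) (P_p5 (P_nl a ha)))
  exact h

theorem P_Dn (i : ℕ) (hi : i < 217) : P (sD (ZMod 251) i) (Dn i) := by
  unfold sD Dn
  split_ifs with h1 h2
  · rw [frc_eq, frc_eq]
    exact P_D3 _ _
  · rw [frc_eq, frc_eq]
    exact P_D2 _ _ (by omega)
  · rw [frc_eq]
    exact P_D1 _ (by omega)

end Pool.Agent.X29.NN
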